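import Pool.Agent.H70.UN.Targets2

/-!
# STPW: one block, with a distribution on the choices
-/

set_option autoImplicit false

namespace Pool.Agent.H70.UN

open Matrix Finset H43.PS

/-- the average of psd matrices is psd -/
theorem avm_psd_STPW {X κ : Type} [Fintype X] [Fintype κ] (g : X → Matrix κ κ ℝ)
    (h : ∀ x, (g x).PosSemidef) : (avm g).PosSemidef := by
  unfold avm
  exact (Matrix.posSemidef_sum _ fun x _ => h x).smul (by positivity)

/-- STPW -/
theorem pf_STPW (STIW : T_STIW) (NNG : T_NNG) : T_STPW := by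
  intro κ Θ _ _ _ _ p hp1 hp2 hΘ q g hg π σ hπ hπ1 hσ hπσ
  obtain ⟨e, he, hes, hG⟩ := STIW κ Θ p hp1 hp2 hΘ q g hg
  choose G hG1 hG2 hG3 using fun b => hG b (σ b) (hσ b)
  refine ⟨G, hG1, hG2, ?_⟩
  have hQ : (0 : ℝ) < Fintype.card Θ := by exact_mod_cast hΘ
  have hp0 : 0 < p - 1 := by linarith
  have hav : 0 ≤ av (fun a => tp p (g a)) := by
    unfold av
    exact mul_nonneg (by positivity) (Finset.sum_nonneg fun a _ => (NNG κ (g a)).2 p (hg a))
  have havm : 0 ≤ tp p (avm g) := (NNG κ (avm g)).2 p (avm_psd_STPW g hg)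
  set T := av (fun a => tp p (g a)) with hT
  set K := ((Fintype.card Θ : ℝ) + 1) ^ (p - 1) with hK
  have hK0 : 0 ≤ K := by positivity
  have h1 : ∑ b, π b * tp p (G b) ≤ ∑ b, (K * (π b * T) + K * ((p - 1) / Fintype.card Θ * e b)) := by
    refine Finset.sum_le_sum fun b _ => ?_
    have h2 := mul_le_mul_of_nonneg_left (hG3 b) (hπ b)
    refine h2.trans ?_
    have h3 := mul_le_mul_of_nonneg_right (hπσ b) (he b)
    have h4 := mul_le_mul_of_nonneg_left h3 hK0
    have e1 : π b * (K * (T + σ b ^ (2 * p) * e b)) =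
        K * (π b * T) + K * (π b * σ b ^ (2 * p) * e b) := by ring
    rw [e1]
    linarith
  rw [Finset.sum_add_distrib, ← Finset.mul_sum, ← Finset.mul_sum, ← Finset.sum_mul,
    ← Finset.mul_sum] at h1
  have h5 : (p - 1) / Fintype.card Θ * ∑ b, e b ≤ T - tp p (avm g) := by
    have h6 := mul_le_mul_of_nonneg_left hes (div_pos hp0 hQ).le
    refine h6.trans (le_of_eq ?_)
    field_simp
  have h7 : (∑ b, π b) * T ≤ 1 * T := mul_le_mul_of_nonneg_right hπ1 hav
  have h8 := mul_le_mul_of_nonneg_left h5 hK0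
  have h9 := mul_le_mul_of_nonneg_left h7 hK0
  have h10 := mul_nonneg hK0 havm
  unfold KU
  rw [← hK]
  nlinarith [h1, h8, h9, h10]

end Pool.Agent.H70.UN
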